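import Mathlib
import Pool.Agent.H1.CCDefs
import Pool.Agent.H1.CCC

open Pool.Agent.H1.CC

theorem Pool.Agent.Results.MP_0f7a95_an.Disproof.result :
    ∃ (X : Type) (_ : NormedAddCommGroup X) (_ : InnerProductSpace ℂ X) (_ : CompleteSpace X)
      (T : X →L[ℂ] X), (∃ x, IsConvexCyclic T x) ∧ ¬ Dense {x | IsConvexCyclic T x} :=
  main
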